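import Pool.Agent.J4H16.LI.Stm

/-! Project LI (MP_95e7ec_an), piece IDN: the identity for the parameter. -/

set_option autoImplicit false

open Set MeasureTheory Filter Topology
open scoped ENNReal

namespace Pool.Agent.J4H79.LI

open Pool.Agent.J4H16.LI

/-- IDN. -/
theorem t_IDN : S_IDN := by
  intro Φ g hS s B Y u hA
  have hBY : -B ≤ Y := by
    have := hA.hB
    have := hA.hY
    linarith
  have hg : Continuous g := hS.smg.continuous
  have hΦ : Continuous (fun y : ℝ => Φ (u y) y) :=
    hS.smΦ.continuous.comp (hA.cont.prodMk continuous_id)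
  set G : ℝ → ℝ := fun x => ∫ t in (0 : ℝ)..x, g t with hG
  have hGd : ∀ x, HasDerivAt G (g x) x := fun x =>
    (hg.integral_hasStrictDerivAt 0 x).hasDerivAt
  have hGc : Continuous G := continuous_iff_continuousAt.mpr fun x => (hGd x).continuousAt
  have hder : ∀ y ∈ Ioo (-B) Y, HasDerivAt (fun y => G (u y)) (-(Φ (u y) y - s * u y)) y := by
    intro y hy
    have h1 := (hGd (u y)).comp y (hA.der y hy)
    have h2 : g (u y) ≠ 0 := by
      intro h0
      have := hS.posg (u y) (hA.pos y hy).ne'
      rw [h0, mul_zero] at this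
      exact lt_irrefl _ this
    have h3 : g (u y) * (-(Φ (u y) y - s * u y) / g (u y)) = -(Φ (u y) y - s * u y) := by
      field_simp
    rw [h3] at h1
    exact h1
  have hcont' : Continuous (fun y => -(Φ (u y) y - s * u y)) :=
    (hΦ.sub (continuous_const.mul hA.cont)).neg
  have hF := intervalIntegral.integral_eq_sub_of_hasDerivAt_of_le hBY
    (hGc.comp hA.cont).continuousOn hder (hcont'.intervalIntegrable _ _)
  have e1 : u (-B) = 0 := hA.out _ (fun h => lt_irrefl _ h.1)
  have e2 : u Y = 0 := hA.out _ (fun h => lt_irrefl _ h.2)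
  simp only [Function.comp, e1, e2, sub_self] at hF
  have hsu : Continuous (fun y => s * u y) := continuous_const.mul hA.cont
  have e0 : ∫ y in (-B)..Y, (Φ (u y) y - s * u y) =
      (∫ y in (-B)..Y, Φ (u y) y) - s * ∫ y in (-B)..Y, u y := by
    rw [intervalIntegral.integral_sub (hΦ.intervalIntegrable _ _) (hsu.intervalIntegrable _ _),
      intervalIntegral.integral_const_mul]
  rw [intervalIntegral.integral_neg, e0] at hF
  have e3 : ∫ y, u y = ∫ y in (-B)..Y, u y := by
    rw [intervalIntegral.integral_of_le hBY]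
    refine (setIntegral_eq_integral_of_forall_compl_eq_zero fun y hy => ?_).symm
    exact hA.out y fun h => hy ⟨h.1, h.2.le⟩
  rw [e3]
  linarith

end Pool.Agent.J4H79.LI
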