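import Pool.Agent.J4H16.LI.Stm

/-! Project LI (MP_95e7ec_an), piece TV: number of preimages of a map of Lipschitz constant one. -/

set_option autoImplicit false

open Set MeasureTheory Filter Topology
open scoped ENNReal

namespace Pool.Agent.J4H79.LI

open Pool.Agent.J4H16.LI

/-- The indices in the cell `k` of the mesh `1 / (n + 1)`. -/
def A {ι : Type} (h : ι → ℝ) (n : ℕ) (k : ℤ) : Set ι := {i | ⌊h i * ((n : ℝ) + 1)⌋ = k}

/-- The hull of the values of the cell. -/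
noncomputable def J {ι : Type} (s h : ι → ℝ) (n : ℕ) (k : ℤ) : Set ℝ :=
  Icc (sInf (s '' A h n k)) (sSup (s '' A h n k))

/-- The number of hulls. -/
noncomputable def Gn {ι : Type} (s h : ι → ℝ) (α β : ℝ) (n : ℕ) (σ : ℝ) : ℝ≥0∞ :=
  ∑ k ∈ Finset.Icc ⌊α * ((n : ℝ) + 1)⌋ ⌊β * ((n : ℝ) + 1)⌋,
    (J s h n k).indicator (fun _ => (1 : ℝ≥0∞)) σ

theorem close {ι : Type} {s h : ι → ℝ} (hs : ∀ i j, |s i - s j| ≤ |h i - h j|) {n : ℕ} {k : ℤ}
    {i j : ι} (hi : i ∈ A h n k) (hj : j ∈ A h n k) : s i - s j ≤ 1 / ((n : ℝ) + 1) := by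
  have hn : (0 : ℝ) < (n : ℝ) + 1 := by positivity
  have h1 : |h i * ((n : ℝ) + 1) - h j * ((n : ℝ) + 1)| < 1 :=
    Int.abs_sub_lt_one_of_floor_eq_floor (hi.trans hj.symm)
  rw [← sub_mul, abs_mul, abs_of_pos hn] at h1
  have h2 : |h i - h j| ≤ 1 / ((n : ℝ) + 1) := by
    rw [le_div_iff₀ hn]
    exact h1.le
  exact (le_abs_self _).trans ((hs i j).trans h2)

theorem J_vol {ι : Type} {s h : ι → ℝ} (hs : ∀ i j, |s i - s j| ≤ |h i - h j|) (n : ℕ) (k : ℤ) :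
    volume (J s h n k) ≤ ENNReal.ofReal (1 / ((n : ℝ) + 1)) := by
  unfold J
  rw [Real.volume_Icc]
  apply ENNReal.ofReal_le_ofReal
  rcases (s '' A h n k).eq_empty_or_nonempty with he | hne
  · rw [he, Real.sSup_empty, Real.sInf_empty, sub_zero]
    positivity
  · rw [sub_le_iff_le_add]
    refine csSup_le hne ?_
    rintro x ⟨i, hi, rfl⟩
    have h1 : s i - 1 / ((n : ℝ) + 1) ≤ sInf (s '' A h n k) := by
      refine le_csInf hne ?_
      rintro y ⟨j, hj, rfl⟩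
      have := close hs hi hj
      linarith
    linarith

theorem mem_J {ι : Type} {s h : ι → ℝ} (hs : ∀ i j, |s i - s j| ≤ |h i - h j|) {n : ℕ} {k : ℤ}
    {i : ι} (hi : i ∈ A h n k) : s i ∈ J s h n k := by
  constructor
  · refine csInf_le ⟨s i - 1 / ((n : ℝ) + 1), ?_⟩ ⟨i, hi, rfl⟩
    rintro y ⟨j, hj, rfl⟩
    have := close hs hi hj
    linarith
  · refine le_csSup ⟨s i + 1 / ((n : ℝ) + 1), ?_⟩ ⟨i, hi, rfl⟩
    rintro y ⟨j, hj, rfl⟩
    have := close hs hj hi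
    linarith

theorem J_meas {ι : Type} (s h : ι → ℝ) (n : ℕ) (k : ℤ) : MeasurableSet (J s h n k) :=
  measurableSet_Icc

theorem Gn_meas {ι : Type} (s h : ι → ℝ) (α β : ℝ) (n : ℕ) : Measurable (Gn s h α β n) := by
  unfold Gn
  refine Finset.measurable_sum _ fun k _ => ?_
  exact measurable_const.indicator (J_meas s h n k)

theorem Gn_int {ι : Type} {s h : ι → ℝ} (hs : ∀ i j, |s i - s j| ≤ |h i - h j|) (α β : ℝ)
    (hαβ : α ≤ β) (n : ℕ) :
    ∫⁻ σ, Gn s h α β n σ ≤ ENNReal.ofReal ((β - α) + 2 * (1 / ((n : ℝ) + 1))) := by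
  have hn : (0 : ℝ) < (n : ℝ) + 1 := by positivity
  unfold Gn
  rw [lintegral_finsetSum _ (fun k _ => measurable_const.indicator (J_meas s h n k))]
  have h1 : ∀ k ∈ Finset.Icc ⌊α * ((n : ℝ) + 1)⌋ ⌊β * ((n : ℝ) + 1)⌋,
      ∫⁻ σ, (J s h n k).indicator (fun _ => (1 : ℝ≥0∞)) σ ≤ ENNReal.ofReal (1 / ((n : ℝ) + 1)) := by
    intro k _
    rw [lintegral_indicator (J_meas s h n k), setLIntegral_one]
    exact J_vol hs n k
  refine (Finset.sum_le_sum h1).trans ?_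
  rw [Finset.sum_const, Int.card_Icc, nsmul_eq_mul]
  have h2 : (((⌊β * ((n : ℝ) + 1)⌋ + 1 - ⌊α * ((n : ℝ) + 1)⌋).toNat : ℕ) : ℝ) ≤
      (β - α) * ((n : ℝ) + 1) + 2 := by
    have hf : ⌊α * ((n : ℝ) + 1)⌋ ≤ ⌊β * ((n : ℝ) + 1)⌋ :=
      Int.floor_le_floor (mul_le_mul_of_nonneg_right hαβ hn.le)
    have h3 : (((⌊β * ((n : ℝ) + 1)⌋ + 1 - ⌊α * ((n : ℝ) + 1)⌋).toNat : ℕ) : ℤ) =
        ⌊β * ((n : ℝ) + 1)⌋ + 1 - ⌊α * ((n : ℝ) + 1)⌋ := Int.toNat_of_nonneg (by omega)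
    have h4 : (((⌊β * ((n : ℝ) + 1)⌋ + 1 - ⌊α * ((n : ℝ) + 1)⌋).toNat : ℕ) : ℝ) =
        (⌊β * ((n : ℝ) + 1)⌋ : ℝ) + 1 - (⌊α * ((n : ℝ) + 1)⌋ : ℝ) := by
      exact_mod_cast h3
    rw [h4]
    have h5 := Int.floor_le (β * ((n : ℝ) + 1))
    have h6 := Int.lt_floor_add_one (α * ((n : ℝ) + 1))
    linarith
  rw [← ENNReal.ofReal_natCast, ← ENNReal.ofReal_mul (by positivity)]
  apply ENNReal.ofReal_le_ofReal
  calc _ ≤ ((β - α) * ((n : ℝ) + 1) + 2) * (1 / ((n : ℝ) + 1)) :=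
        mul_le_mul_of_nonneg_right h2 (by positivity)
    _ = _ := by field_simp

theorem card_le {ι : Type} {s h : ι → ℝ} (hs : ∀ i j, |s i - s j| ≤ |h i - h j|) (α β : ℝ)
    (hinj : Function.Injective h) (hαβ : ∀ i, h i ∈ Icc α β) (σ : ℝ) (F : Finset ι)
    (hF : ∀ i ∈ F, s i = σ) : ∀ᶠ n : ℕ in atTop, ((F.card : ℕ) : ℝ≥0∞) ≤ Gn s h α β n σ := by
  classical
  have h1 : ∀ i ∈ F, ∀ j ∈ F, i ≠ j → ∀ᶠ n : ℕ in atTop,
      ⌊h i * ((n : ℝ) + 1)⌋ ≠ ⌊h j * ((n : ℝ) + 1)⌋ := by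
    intro i _ j _ hij
    have hd : 0 < |h i - h j| := abs_pos.mpr (sub_ne_zero.mpr (fun e => hij (hinj e)))
    obtain ⟨n₀, hn₀⟩ := exists_nat_gt (1 / |h i - h j|)
    filter_upwards [eventually_ge_atTop n₀] with n hn heq
    have h2 := Int.abs_sub_lt_one_of_floor_eq_floor heq
    have hn1 : (0 : ℝ) < (n : ℝ) + 1 := by positivity
    rw [← sub_mul, abs_mul, abs_of_pos hn1] at h2
    have h3 : (n₀ : ℝ) ≤ n := by exact_mod_cast hn
    rw [div_lt_iff₀ hd] at hn₀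
    nlinarith
  have h2 : ∀ᶠ n : ℕ in atTop, ∀ i ∈ F, ∀ j ∈ F, i ≠ j →
      ⌊h i * ((n : ℝ) + 1)⌋ ≠ ⌊h j * ((n : ℝ) + 1)⌋ := by
    rw [Finset.eventually_all]
    intro i hi
    rw [Finset.eventually_all]
    intro j hj
    by_cases hij : i = j
    · exact Eventually.of_forall fun n h => absurd hij h
    · filter_upwards [h1 i hi j hj hij] with n hn _ using hn
  filter_upwards [h2] with n hn
  have hn1 : (0 : ℝ) < (n : ℝ) + 1 := by positivity
  set f : ι → ℤ := fun i => ⌊h i * ((n : ℝ) + 1)⌋ with hf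
  have hfi : Set.InjOn f F := by
    intro i hi j hj hij
    by_contra hne
    exact hn i hi j hj hne hij
  have hsub : F.image f ⊆ Finset.Icc ⌊α * ((n : ℝ) + 1)⌋ ⌊β * ((n : ℝ) + 1)⌋ := by
    intro k hk
    obtain ⟨i, hi, rfl⟩ := Finset.mem_image.mp hk
    rw [Finset.mem_Icc]
    exact ⟨Int.floor_le_floor (mul_le_mul_of_nonneg_right (hαβ i).1 hn1.le),
      Int.floor_le_floor (mul_le_mul_of_nonneg_right (hαβ i).2 hn1.le)⟩
  have hone : ∀ k ∈ F.image f, (J s h n k).indicator (fun _ => (1 : ℝ≥0∞)) σ = 1 := by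
    intro k hk
    obtain ⟨i, hi, rfl⟩ := Finset.mem_image.mp hk
    have : σ ∈ J s h n (f i) := by
      rw [← hF i hi]
      exact mem_J hs rfl
    rw [indicator_of_mem this]
  calc ((F.card : ℕ) : ℝ≥0∞) = ∑ k ∈ F.image f, (1 : ℝ≥0∞) := by
        rw [Finset.sum_const, Finset.card_image_of_injOn hfi, nsmul_eq_mul, mul_one]
    _ = ∑ k ∈ F.image f, (J s h n k).indicator (fun _ => (1 : ℝ≥0∞)) σ :=
        (Finset.sum_congr rfl hone).symm
    _ ≤ Gn s h α β n σ := Finset.sum_le_sum_of_subset hsub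

/-- TV. -/
theorem t_TV : S_TV := by
  intro ι s h α β hαβ hinj hI hs
  refine ⟨fun σ => liminf (fun n => Gn s h α β n σ) atTop,
    Measurable.liminf (Gn_meas s h α β), ?_, ?_⟩
  · intro σ
    have key : ∀ F : Finset ι, (∀ i ∈ F, s i = σ) →
        ((F.card : ℕ) : ℝ≥0∞) ≤ liminf (fun n => Gn s h α β n σ) atTop := fun F hF =>
      le_liminf_of_le (by isBoundedDefault) (card_le hs α β hinj hI σ F hF)
    rcases {i : ι | s i = σ}.finite_or_infinite with hfin | hinf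
    · have h1 := key hfin.toFinset (fun i hi => (hfin.mem_toFinset.mp hi))
      rw [hfin.encard_eq_coe_toFinset_card]
      simpa using h1
    · have h1 : liminf (fun n => Gn s h α β n σ) atTop = ⊤ := by
        refine ENNReal.eq_top_of_forall_nnreal_le fun r => ?_
        obtain ⟨m, hm⟩ := exists_nat_ge r
        obtain ⟨F, hF, hc⟩ := hinf.exists_subset_card_eq m
        have h2 := key F (fun i hi => hF hi)
        rw [hc] at h2
        refine le_trans ?_ h2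
        exact_mod_cast hm
      simp only [h1, le_top]
  · refine (lintegral_liminf_le (Gn_meas s h α β)).trans ?_
    have h1 : Tendsto (fun n : ℕ => ENNReal.ofReal ((β - α) + 2 * (1 / ((n : ℝ) + 1)))) atTop
        (𝓝 (ENNReal.ofReal (β - α))) := by
      refine ENNReal.tendsto_ofReal ?_
      have h2 := (tendsto_one_div_add_atTop_nhds_zero_nat (𝕜 := ℝ)).const_mul 2
      have h3 := h2.const_add (β - α)
      rwa [mul_zero, add_zero] at h3
    rw [← h1.liminf_eq]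
    exact liminf_le_liminf (Eventually.of_forall fun n => Gn_int hs α β hαβ n)

end Pool.Agent.J4H79.LI
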